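import Pool.Agent.H62.NS.SuspDef
import Pool.Agent.H62.NSin.Basic

/-!
The suspension flow over an invertible measure preserving map `T` of `(X, μ)`: the space is
`UnitAddCircle × X`, the flow is `S a (z, x) = (z + a, T ^ floor (th z + a) x)` with `th z` in
`[0, 1)` the representative of `z`.  It satisfies `IsSusp`.
-/

set_option autoImplicit false
set_option linter.unusedSectionVars false

open MeasureTheory Finset
open scoped BigOperators

namespace Pool.Agent.H76.NS

open Pool.Agent.H63.NS Pool.Agent.H62.NS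

/-- the representative in `[0, 1)` -/
noncomputable def cth (z : UnitAddCircle) : ℝ := ((AddCircle.equivIco (1 : ℝ) 0 z : Set.Ico (0 : ℝ) (0 + 1)) : ℝ)

lemma cth_nonneg (z : UnitAddCircle) : 0 ≤ cth z := (AddCircle.equivIco (1 : ℝ) 0 z).2.1

lemma cth_lt_one (z : UnitAddCircle) : cth z < 1 := by
  have := (AddCircle.equivIco (1 : ℝ) 0 z).2.2
  unfold cth
  linarith

lemma cth_coe (t : ℝ) : cth (t : UnitAddCircle) = Int.fract t := by
  unfold cth
  have h := AddCircle.coe_equivIco_mk_apply (1 : ℝ) t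
  rw [div_one, mul_one] at h
  exact h

lemma coe_cth (z : UnitAddCircle) : ((cth z : ℝ) : UnitAddCircle) = z :=
  AddCircle.coe_equivIco (p := (1 : ℝ)) (a := 0) (y := z)

lemma cth_add (z : UnitAddCircle) (a : ℝ) : cth (z + (a : UnitAddCircle)) = Int.fract (cth z + a) := by
  rw [← cth_coe, AddCircle.coe_add, coe_cth]

lemma meas_cth : Measurable cth :=
  measurable_subtype_coe.comp (AddCircle.measurableEquivIco (1 : ℝ) 0).measurable

variable {X : Type} [MeasurableSpace X]

/-- the suspension flow -/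
noncomputable def sus (T : X ≃ᵐ X) (a : ℝ) (y : UnitAddCircle × X) : UnitAddCircle × X :=
  (y.1 + (a : UnitAddCircle), (T.toEquiv ^ ⌊cth y.1 + a⌋) y.2)

lemma sus_zero (T : X ≃ᵐ X) (y : UnitAddCircle × X) : sus T 0 y = y := by
  unfold sus
  have h : ⌊cth y.1 + 0⌋ = 0 := by
    rw [add_zero, Int.floor_eq_zero_iff]
    exact ⟨cth_nonneg _, cth_lt_one _⟩
  rw [h, zpow_zero]
  simp

lemma sus_add (T : X ≃ᵐ X) (a b : ℝ) (y : UnitAddCircle × X) :
    sus T (a + b) y = sus T a (sus T b y) := by
  unfold sus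
  have h1 : cth (y.1 + (b : UnitAddCircle)) = Int.fract (cth y.1 + b) := cth_add _ _
  have h2 : ⌊cth y.1 + (a + b)⌋ = ⌊cth (y.1 + (b : UnitAddCircle)) + a⌋ + ⌊cth y.1 + b⌋ := by
    rw [h1, ← Int.floor_add_intCast]
    congr 1
    have := Int.floor_add_fract (cth y.1 + b)
    linarith
  refine Prod.ext ?_ ?_
  · show y.1 + ((a + b : ℝ) : UnitAddCircle) = y.1 + (b : UnitAddCircle) + (a : UnitAddCircle)
    rw [AddCircle.coe_add]
    abel
  · show (T.toEquiv ^ ⌊cth y.1 + (a + b)⌋) y.2 =
      (T.toEquiv ^ ⌊cth (y.1 + (b : UnitAddCircle)) + a⌋) ((T.toEquiv ^ ⌊cth y.1 + b⌋) y.2)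
    rw [h2, zpow_add]
    rfl

lemma meas_pow2 (T : X ≃ᵐ X) : Measurable (fun q : ℤ × X => (T.toEquiv ^ q.1) q.2) :=
  measurable_from_prod_countable_right (fun k => Pool.Agent.H62.NSin.meas_zpow T k)

instance isProb_circle : IsProbabilityMeasure (volume : Measure UnitAddCircle) :=
  ⟨UnitAddCircle.measure_univ⟩

variable {μ : Measure X} [IsProbabilityMeasure μ]

lemma sus_mp (T : X ≃ᵐ X) (hT : MeasurePreserving T μ μ) (a : ℝ) :
    MeasurePreserving (sus T a) ((volume : Measure UnitAddCircle).prod μ)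
      ((volume : Measure UnitAddCircle).prod μ) := by
  have h1 : MeasurePreserving (fun z : UnitAddCircle => z + (a : UnitAddCircle)) volume volume :=
    measurePreserving_add_right volume (a : UnitAddCircle)
  have hm : Measurable (Function.uncurry
      (fun (z : UnitAddCircle) (x : X) => (T.toEquiv ^ ⌊cth z + a⌋) x)) := by
    have h2 : Measurable (fun p : UnitAddCircle × X => (⌊cth p.1 + a⌋, p.2)) :=
      (((meas_cth.comp measurable_fst).add measurable_const).floor).prodMk measurable_snd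
    exact (meas_pow2 T).comp h2
  exact h1.skew_product hm (Filter.Eventually.of_forall fun z => (Pool.Agent.H62.NSin.mp_zpow hT ⌊cth z + a⌋).map_eq)

/-- the suspension as a `Flow` -/
noncomputable def susFlow (T : X ≃ᵐ X) (hT : MeasurePreserving T μ μ) :
    Flow ((volume : Measure UnitAddCircle).prod μ) where
  S := sus T
  mp := sus_mp T hT
  zero := sus_zero T
  add := sus_add T

/-- the law of the circle coordinate -/
lemma int_cth {d : ℝ} (h0 : 0 ≤ d) (h1 : d ≤ 1) :
    ∫ z : UnitAddCircle, (if cth z < d then (1 : ℝ) else 0) = d := by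
  rw [← UnitAddCircle.integral_preimage 0]
  have e : ∫ a in Set.Ioc (0 : ℝ) (0 + 1), (if cth ((a : ℝ) : UnitAddCircle) < d then (1 : ℝ) else 0)
      = ∫ a in Set.Ioc (0 : ℝ) (0 + 1), (Set.Ico (0 : ℝ) d).indicator (fun _ => (1 : ℝ)) a := by
    apply integral_congr_ae
    have hne : ∀ᵐ a ∂(volume.restrict (Set.Ioc (0 : ℝ) (0 + 1))), a ≠ 1 :=
      ae_restrict_of_ae (Measure.ae_ne volume 1)
    filter_upwards [ae_restrict_mem measurableSet_Ioc, hne] with a ha hne
    rw [cth_coe]
    have hf : Int.fract a = a := by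
      rw [Int.fract_eq_self]
      refine ⟨ha.1.le, lt_of_le_of_ne (by linarith [ha.2]) hne⟩
    rw [hf]
    by_cases h : a < d
    · rw [if_pos h, Set.indicator_of_mem]
      exact ⟨ha.1.le, h⟩
    · rw [if_neg h, Set.indicator_of_notMem]
      exact fun h' => h h'.2
  rw [e, integral_indicator measurableSet_Ico, Measure.restrict_restrict measurableSet_Ico]
  simp only [integral_const, smul_eq_mul, mul_one]
  rw [Measure.real, Measure.restrict_apply_univ]
  have e2 : Set.Ico (0 : ℝ) d ∩ Set.Ioc (0 : ℝ) (0 + 1) = Set.Ioo 0 d := by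
    ext a
    simp only [Set.mem_inter_iff, Set.mem_Ico, Set.mem_Ioc, Set.mem_Ioo]
    constructor
    · rintro ⟨⟨_, h2⟩, h3, _⟩
      exact ⟨h3, h2⟩
    · rintro ⟨h3, h2⟩
      exact ⟨⟨h3.le, h2⟩, h3, by linarith⟩
  rw [e2, Real.volume_Ioo, sub_zero, ENNReal.toReal_ofReal h0]

lemma int_win {d : ℝ} (h0 : 0 ≤ d) (h1 : d ≤ 1) (g : X → ℝ) :
    ∫ y, (if cth (Prod.fst y) < d then g (Prod.snd y) else 0)
      ∂((volume : Measure UnitAddCircle).prod μ) = d * ∫ x, g x ∂μ := by
  have e : (fun y : UnitAddCircle × X => if cth y.1 < d then g y.2 else 0) =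
      fun y => (if cth y.1 < d then (1 : ℝ) else 0) * g y.2 := by
    funext y
    split_ifs <;> simp
  rw [e, integral_prod_mul (fun z : UnitAddCircle => if cth z < d then (1 : ℝ) else 0) g, int_cth h0 h1]

/-- goodness of a function of the fibre coordinate -/
lemma good_fib (T : X ≃ᵐ X) (hT : MeasurePreserving T μ μ) (f : X → ℝ) (hf : Measurable f)
    (hb : ∀ x, |f x| ≤ 1) :
    (susFlow T hT).Good (mkBM (fun y : UnitAddCircle × X => f y.2) (hf.comp measurable_snd) 1
      (fun _ => hb _)) := by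
  refine ⟨fun y => hb _, fun ε hε => ⟨min (1 / 2) (ε / 4), lt_min (by norm_num) (by positivity),
    fun a ha => ?_⟩⟩
  have ha1 : |a| ≤ 1 / 2 := ha.trans (min_le_left _ _)
  have ha2 : |a| ≤ ε / 4 := ha.trans (min_le_right _ _)
  obtain ⟨hl, hu⟩ := abs_le.mp ha1
  -- the set of the bad circle coordinates
  have key : ∀ y : UnitAddCircle × X,
      |f ((T.toEquiv ^ ⌊cth y.1 + a⌋) y.2) - f y.2| ≤
        2 * ((if cth y.1 < |a| then (1 : ℝ) else 0)) ∨
      |f ((T.toEquiv ^ ⌊cth y.1 + a⌋) y.2) - f y.2| ≤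
        2 * (1 - (if cth y.1 < 1 - |a| then (1 : ℝ) else 0)) := by
    intro y
    have h0 := cth_nonneg y.1
    have h1 := cth_lt_one y.1
    have hd : |f ((T.toEquiv ^ ⌊cth y.1 + a⌋) y.2) - f y.2| ≤ 2 := by
      refine (abs_sub _ _).trans ?_
      linarith [hb ((T.toEquiv ^ ⌊cth y.1 + a⌋) y.2), hb y.2]
    by_cases hfl : ⌊cth y.1 + a⌋ = 0
    · left
      rw [hfl]
      simp only [zpow_zero, Equiv.Perm.coe_one, id_eq, sub_self, abs_zero]
      split_ifs <;> norm_num
    · rw [Int.floor_eq_zero_iff] at hfl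
      rcases le_or_gt 0 a with h | h
      · right
        rw [abs_of_nonneg h, if_neg]
        · linarith
        · intro hlt
          exact hfl ⟨by linarith, by linarith⟩
      · left
        rw [abs_of_neg h, if_pos]
        · linarith
        · by_contra hlt
          exact hfl ⟨by linarith [not_lt.mp hlt], by linarith⟩
  have hsum : ∀ y : UnitAddCircle × X,
      |f ((T.toEquiv ^ ⌊cth y.1 + a⌋) y.2) - f y.2| ≤
        2 * ((if cth y.1 < |a| then (1 : ℝ) else 0)) +
        2 * (1 - (if cth y.1 < 1 - |a| then (1 : ℝ) else 0)) := by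
    intro y
    have hA : (0 : ℝ) ≤ 2 * ((if cth y.1 < |a| then (1 : ℝ) else 0)) := by
      split_ifs <;> norm_num
    have hB : (0 : ℝ) ≤ 2 * (1 - (if cth y.1 < 1 - |a| then (1 : ℝ) else 0)) := by
      split_ifs <;> norm_num
    rcases key y with h | h
    · linarith
    · linarith
  set ν : Measure (UnitAddCircle × X) := (volume : Measure UnitAddCircle).prod μ with hν
  have hm : ∀ d : ℝ, Measurable (fun y : UnitAddCircle × X => if cth y.1 < d then (1 : ℝ) else 0) :=
    fun d => Measurable.ite (measurableSet_lt (meas_cth.comp measurable_fst) measurable_const)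
      measurable_const measurable_const
  have hi : ∀ d : ℝ, Integrable (fun y : UnitAddCircle × X => if cth y.1 < d then (1 : ℝ) else 0) ν :=
    fun d => Integrable.of_bound (hm d).aestronglyMeasurable 1 (Filter.Eventually.of_forall fun y => by
      rw [Real.norm_eq_abs]
      split_ifs <;> simp)
  have hi' : ∀ d : ℝ, Integrable (fun y : UnitAddCircle × X =>
      1 - (if cth y.1 < d then (1 : ℝ) else 0)) ν := fun d => (integrable_const (1 : ℝ)).sub (hi d)
  have hw : ∀ d : ℝ, 0 ≤ d → d ≤ 1 →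
      ∫ y : UnitAddCircle × X, (if cth y.1 < d then (1 : ℝ) else 0) ∂ν = d := by
    intro d h0 h1
    have := int_win (μ := μ) h0 h1 (fun _ => (1 : ℝ))
    rw [this]
    simp
  have h1 : I ν (babs ((susFlow T hT).T a (mkBM (fun y : UnitAddCircle × X => f y.2)
      (hf.comp measurable_snd) 1 (fun _ => hb _)) - (mkBM (fun y : UnitAddCircle × X => f y.2)
      (hf.comp measurable_snd) 1 (fun _ => hb _)))) ≤
      ∫ y : UnitAddCircle × X, (2 * ((if cth y.1 < |a| then (1 : ℝ) else 0)) +
        2 * (1 - (if cth y.1 < 1 - |a| then (1 : ℝ) else 0))) ∂ν := by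
    rw [I_def]
    refine integral_mono (bint ν _) (((hi _).const_mul 2).add ((hi' _).const_mul 2)) (fun y => ?_)
    exact hsum y
  refine h1.trans ?_
  rw [integral_add ((hi _).const_mul 2) ((hi' _).const_mul 2),
    integral_const_mul, integral_const_mul, integral_sub (integrable_const (1 : ℝ)) (hi _),
    hw _ (abs_nonneg a) (by linarith), hw _ (by linarith) (by linarith [abs_nonneg a])]
  simp only [integral_const, smul_eq_mul, mul_one]
  rw [probReal_univ]
  linarith [abs_nonneg a]

/-- the suspension satisfies `IsSusp` -/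
theorem isSusp_sus (T : X ≃ᵐ X) (hT : MeasurePreserving T μ μ) :
    IsSusp μ T (susFlow T hT) (fun y => cth y.1) (fun y => y.2) where
  mth := meas_cth.comp measurable_fst
  mp := measurable_snd
  th0 := fun y => cth_nonneg _
  th1 := fun y => cth_lt_one _
  thS := fun a y => cth_add _ _
  pS := fun a y => rfl
  good := fun f hf hb => good_fib T hT f hf hb
  win := fun g _ _ d h0 h1 => int_win h0 h1 g

/-- existence of the suspension flow -/
theorem exists_susp (T : X ≃ᵐ X) (hT : MeasurePreserving T μ μ) :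
    ∃ (Y : Type) (_ : MeasurableSpace Y) (ν : Measure Y) (_ : IsProbabilityMeasure ν)
      (F : Flow ν) (th : Y → ℝ) (p : Y → X), IsSusp μ T F th p :=
  ⟨UnitAddCircle × X, inferInstance, (volume : Measure UnitAddCircle).prod μ, inferInstance,
    susFlow T hT, fun y => cth y.1, fun y => y.2, isSusp_sus T hT⟩

end Pool.Agent.H76.NS
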